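import Pool.Agent.Lib_helper31.Flip.DD

/-! # Block DD, part 2: the frames `(k, ik, (1+i) f)` -/

set_option autoImplicit false

namespace Pool.Agent.Flip

open scoped InnerProductSpace ComplexConjugate
open Complex Module Set Metric Filter Topology Pool.Agent.Deg47

noncomputable section

/-- `J` as a linear isometry. -/
def Jis85 : V ≃ₗᵢ[ℝ] V :=
  { toLinearEquiv := LinearEquiv.ofLinearMap (J : V →ₗ[ℝ] V) (-(J : V →ₗ[ℝ] V))
      (by ext z : 1; simp only [LinearMap.comp_apply, LinearMap.neg_apply, map_neg,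
            ContinuousLinearMap.coe_coe, J_J, neg_neg, LinearMap.id_apply])
      (by ext z : 1; simp only [LinearMap.comp_apply, LinearMap.neg_apply,
            ContinuousLinearMap.coe_coe, J_J, neg_neg, LinearMap.id_apply])
    norm_map' := fun z => norm_J z }

theorem Jis85_apply (z : V) : Jis85 z = J z := rfl

theorem finrank_Fp85 {Φ : Sys} (hS : Symm Φ) {w : W} (hw : w ∈ D1 Φ) :
    Module.finrank ℝ (Fp (A Φ w)) = 4 := by
  have h := finrank_split_anti (T := A Φ w) Jis85 (A_sym hS w) (fun x => A_J Φ w x)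
  rw [finrank_V] at h
  have h2 : Module.finrank ℝ (Kr (A Φ w)) = 2 := hw.2
  omega

theorem exists_frameAt {Φ : Sys} (hS : Symm Φ) {w : W} (hw : w ∈ D1 Φ) :
    ∃ k f, FrameAt Φ w k f := by
  have h2 : Module.finrank ℝ (Kr (A Φ w)) = 2 := hw.2
  have h4 := finrank_Fp85 hS hw
  have hne : Kr (A Φ w) ≠ ⊥ := by
    intro h
    rw [h, finrank_bot] at h2
    norm_num at h2
  obtain ⟨k, hk, hk0⟩ := (Submodule.ne_bot_iff _).1 hne
  let bs := Module.finBasisOfFinrankEq ℝ (Fp (A Φ w)) h4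
  refine ⟨k, fun j => (bs j : V), hk0, hk, ?_, fun j => (bs j).2⟩
  exact bs.linearIndependent.map' (Fp (A Φ w)).subtype (Submodule.ker_subtype _)

/-- the combination of a frame -/
theorem sum_fr (k : V) (f : Fin 4 → V) (x : Fin 6 → ℝ) :
    ∑ j, x j • fr k f j = (x 0 • k + x 1 • J k) +
      J1 (∑ i : Fin 4, x (Fin.natAdd 2 i) • f i) := by
  rw [Fin.sum_univ_six, Fin.sum_univ_four]
  have e2 : (Fin.natAdd 2 (0 : Fin 4)) = (2 : Fin 6) := rfl
  have e3 : (Fin.natAdd 2 (1 : Fin 4)) = (3 : Fin 6) := rfl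
  have e4 : (Fin.natAdd 2 (2 : Fin 4)) = (4 : Fin 6) := rfl
  have e5 : (Fin.natAdd 2 (3 : Fin 4)) = (5 : Fin 6) := rfl
  rw [e2, e3, e4, e5]
  simp only [map_add, map_smul]
  have f0 : fr k f 0 = k := rfl
  have f1 : fr k f 1 = J k := rfl
  have f2 : fr k f 2 = J1 (f 0) := rfl
  have f3 : fr k f 3 = J1 (f 1) := rfl
  have f4 : fr k f 4 = J1 (f 2) := rfl
  have f5 : fr k f 5 = J1 (f 3) := rfl
  rw [f0, f1, f2, f3, f4, f5]
  abel

theorem J_mem_Fn {Φ : Sys} (hS : Symm Φ) {w : W} {x : V} (hx : x ∈ Fp (A Φ w)) :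
    J x ∈ Fp (-(A Φ w)) :=
  map_Fp_anti Jis85 (A_sym hS w) (fun x => A_J Φ w x) hx

/-- isotropy of `k + (1+i) f` -/
theorem isotropic_aux {Φ : Sys} (hS : Symm Φ) {w : W} {k p : V} (hk : A Φ w k = 0)
    (hp : p ∈ Fp (A Φ w)) : ⟪A Φ w (k + J1 p), k + J1 p⟫_ℝ = 0 := by
  have hAk : ∀ y, ⟪A Φ w y, k⟫_ℝ = 0 := by
    intro y
    rw [A_sym hS w, hk, inner_zero_right]
  have hAp := map_mem_Fp (A_sym hS w) hp
  have hJp := J_mem_Fn hS hp
  have h1 : ⟪A Φ w p, J p⟫_ℝ = 0 := inner_Fp_Fn (A_sym hS w) hAp hJp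
  have h2 : ⟪A Φ w (J p), p⟫_ℝ = 0 := by
    rw [A_sym hS w, real_inner_comm]; exact h1
  have h3 : ⟪A Φ w (J p), J p⟫_ℝ = -⟪A Φ w p, p⟫_ℝ := by
    rw [A_J, inner_neg_left, inner_J]
  rw [map_add, hk, zero_add, inner_add_right, hAk, zero_add, J1_apply, map_add, inner_add_left,
    inner_add_right, inner_add_right, h1, h2, h3]
  ring

theorem FrameAt.sum_mem {Φ : Sys} {w : W} {k : V} {f : Fin 4 → V} (h : FrameAt Φ w k f)
    (x : Fin 4 → ℝ) : ∑ i, x i • f i ∈ Fp (A Φ w) :=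
  Submodule.sum_mem _ (fun i _ => Submodule.smul_mem _ _ (h.mem i))

theorem FrameAt.ker_comb {Φ : Sys} {w : W} {k : V} {f : Fin 4 → V} (h : FrameAt Φ w k f)
    (a b : ℝ) : A Φ w (a • k + b • J k) = 0 := by
  rw [map_add, map_smul, map_smul, A_J, h.k_ker, map_zero, neg_zero, smul_zero, smul_zero, add_zero]

theorem comb_k_eq_zero {k : V} (hk : k ≠ 0) {a b : ℝ} (h : a • k + b • J k = 0) :
    a = 0 ∧ b = 0 := by
  have h1 : ⟪a • k + b • J k, k⟫_ℝ = 0 := by rw [h, inner_zero_left]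
  rw [inner_add_left, inner_smul_left, inner_smul_left, inner_J_self] at h1
  simp only [conj_trivial, mul_zero, add_zero] at h1
  have hkk : ⟪k, k⟫_ℝ ≠ 0 := inner_self_ne_zero.2 hk
  have ha : a = 0 := by
    rcases mul_eq_zero.1 h1 with h2 | h2
    · exact h2
    · exact absurd h2 hkk
  refine ⟨ha, ?_⟩
  rw [ha, zero_smul, zero_add, smul_eq_zero] at h
  rcases h with h2 | h2
  · exact h2
  · exfalso
    have := norm_J k
    rw [h2, norm_zero] at this
    exact hk (norm_eq_zero.1 this.symm)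

theorem FrameAt.fr_li {Φ : Sys} (hS : Symm Φ) {w : W} {k : V}
    {f : Fin 4 → V} (h : FrameAt Φ w k f) : LinearIndependent ℝ (fr k f) := by
  rw [Fintype.linearIndependent_iff]
  intro x hx
  rw [sum_fr] at hx
  obtain ⟨p, hp⟩ : ∃ p : V, p = ∑ i : Fin 4, x (Fin.natAdd 2 i) • f i := ⟨_, rfl⟩
  have hpm : p ∈ Fp (A Φ w) := by
    rw [hp]; exact h.sum_mem (fun i => x (Fin.natAdd 2 i))
  rw [← hp] at hx
  have hkm : x 0 • k + x 1 • J k ∈ Kr (A Φ w) := h.ker_comb _ _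
  have h1 : ⟪(x 0 • k + x 1 • J k) + J1 p, p⟫_ℝ = 0 := by rw [hx, inner_zero_left]
  rw [inner_add_left, inner_Kr_Fp (A_sym hS w) hkm hpm, zero_add, J1_apply, inner_add_left,
    inner_J_self, add_zero] at h1
  have hp0 : p = 0 := inner_self_eq_zero.1 h1
  rw [hp0, map_zero, add_zero] at hx
  obtain ⟨h0, h1'⟩ := comb_k_eq_zero h.k_ne hx
  have hli := Fintype.linearIndependent_iff.1 h.li (fun i => x (Fin.natAdd 2 i))
    (by rw [← hp]; exact hp0)
  intro i
  have e2 := hli 0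
  have e3 := hli 1
  have e4 := hli 2
  have e5 := hli 3
  fin_cases i
  · exact h0
  · exact h1'
  · exact e2
  · exact e3
  · exact e4
  · exact e5

theorem D1_ne_zero {Φ : Sys} {w : W} (hw : w ∈ D1 Φ) : w ≠ 0 := by
  intro h
  have := hw.1
  rw [h, norm_zero] at this
  exact zero_ne_one this

theorem FrameAt.nd {Φ : Sys} (hS : Symm Φ) (hZ : ZeroFree Φ) {w : W} (hw : w ∈ D1 Φ) {k : V}
    {f : Fin 4 → V} (h : FrameAt Φ w k f) : ND Φ w (fr k f) := by
  refine ND_of_isotropic hZ (D1_ne_zero hw) (h.fr_li hS) (fun x => ?_)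
  rw [sum_fr]
  exact isotropic_aux hS (h.ker_comb _ _) (h.sum_mem (fun i => x (Fin.natAdd 2 i)))

theorem FrameAt.exists_coef {Φ : Sys} {w : W} (hw : w ∈ D1 Φ) {k k' : V} {f : Fin 4 → V}
    (h : FrameAt Φ w k f) (hk' : A Φ w k' = 0) : ∃ a b : ℝ, k' = a • k + b • J k := by
  have h2 : Module.finrank ℝ (Kr (A Φ w)) = 2 := hw.2
  have hli : LinearIndependent ℝ ![k, J k] := by
    rw [LinearIndependent.pair_iff]
    intro s t hst
    exact comb_k_eq_zero h.k_ne hst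
  have hle : Submodule.span ℝ (Set.range ![k, J k]) ≤ Kr (A Φ w) := by
    rw [Submodule.span_le]
    rintro _ ⟨i, rfl⟩
    fin_cases i
    · exact h.k_ker
    · change A Φ w (J k) = 0
      rw [A_J, h.k_ker, map_zero, neg_zero]
  have heq : Submodule.span ℝ (Set.range ![k, J k]) = Kr (A Φ w) := by
    refine Submodule.eq_of_le_of_finrank_eq hle ?_
    rw [h2, finrank_span_eq_card hli, Fintype.card_fin]
  have hmem : k' ∈ Submodule.span ℝ (Set.range ![k, J k]) := by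
    rw [heq]; exact hk'
  obtain ⟨c, hc⟩ := (Submodule.mem_span_range_iff_exists_fun ℝ).mp hmem
  refine ⟨c 0, c 1, ?_⟩
  rw [← hc, Fin.sum_univ_two]
  rfl

theorem FrameAt.det_ne_zero {Φ : Sys} {w : W} {k' : V} {f f' : Fin 4 → V}
    (h' : FrameAt Φ w k' f')
    (M : Matrix (Fin 4) (Fin 4) ℝ) (hM : ∀ i, f' i = ∑ j, M i j • f j) : M.det ≠ 0 := by
  intro hdet
  obtain ⟨v, hv, hv0⟩ := Matrix.exists_vecMul_eq_zero_iff.2 hdet
  refine hv ?_
  have hli := Fintype.linearIndependent_iff.1 h'.li v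
  funext i
  refine hli ?_ i
  have e : ∑ i, v i • f' i = ∑ j, (Matrix.vecMul v M) j • f j := by
    simp only [hM, Finset.smul_sum]
    rw [Finset.sum_comm]
    refine Finset.sum_congr rfl (fun j _ => ?_)
    simp only [smul_smul, Matrix.vecMul, dotProduct]
    rw [Finset.sum_smul]
  rw [e, hv0]
  simp

theorem DD_frame_change {Φ : Sys} (hS : Symm Φ) (hZ : ZeroFree Φ) {w : W} (hw : w ∈ D1 Φ)
    {k k' : V} {f f' : Fin 4 → V} (h : FrameAt Φ w k f) (h' : FrameAt Φ w k' f')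
    (M : Matrix (Fin 4) (Fin 4) ℝ) (hM : ∀ i, f' i = ∑ j, M i j • f j) :
    DD Φ w (fr k' f') = (SignType.sign M.det : ℤ) * DD Φ w (fr k f) := by
  obtain ⟨a, b, hab⟩ := h.exists_coef hw h'.k_ker
  have hJk' : J k' = (-b) • k + a • J k := by
    rw [hab, map_add, map_smul, map_smul, J_J, smul_neg, neg_smul]; abel
  have hpos : 0 < a ^ 2 + b ^ 2 := by
    rcases eq_or_ne a 0 with ha | ha
    · rcases eq_or_ne b 0 with hb | hb
      · exfalso
        rw [ha, hb, zero_smul, zero_smul, add_zero] at hab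
        exact h'.k_ne hab
      · positivity
    · positivity
  obtain ⟨R, hR⟩ : ∃ R : Matrix (Fin 2) (Fin 2) ℝ, R = !![a, b; -b, a] := ⟨_, rfl⟩
  obtain ⟨e, he⟩ : ∃ e : Fin 2 ⊕ Fin 4 ≃ Fin 6, e = finSumFinEquiv := ⟨_, rfl⟩
  obtain ⟨M6, hM6⟩ : ∃ M6 : Matrix (Fin 6) (Fin 6) ℝ,
      M6 = Matrix.reindex e e (Matrix.fromBlocks R 0 0 M) := ⟨_, rfl⟩
  have hdet6 : M6.det = (a ^ 2 + b ^ 2) * M.det := by
    rw [hM6, Matrix.det_reindex_self, Matrix.det_fromBlocks_zero₂₁, hR, Matrix.det_fin_two_of]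
    ring
  have hMdet := FrameAt.det_ne_zero h' M hM
  have hne : M6.det ≠ 0 := by rw [hdet6]; exact mul_ne_zero hpos.ne' hMdet
  have hentry : ∀ s t, M6 (e s) (e t) = Matrix.fromBlocks R 0 0 M s t := by
    intro s t
    rw [hM6, Matrix.reindex_apply, Matrix.submatrix_apply, e.symm_apply_apply, e.symm_apply_apply]
  have hfrl : ∀ (k : V) (f : Fin 4 → V) (i : Fin 2), fr k f (e (Sum.inl i)) = ![k, J k] i := by
    intro k f i
    rw [he]
    fin_cases i <;> rfl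
  have hfrr : ∀ (k : V) (f : Fin 4 → V) (i : Fin 4), fr k f (e (Sum.inr i)) = J1 (f i) := by
    intro k f i
    rw [he]
    fin_cases i <;> rfl
  have hfr : ∀ i, fr k' f' i = ∑ j, M6 i j • fr k f j := by
    intro i
    obtain ⟨s, rfl⟩ := e.surjective i
    rw [← e.sum_comp, Fintype.sum_sum_type]
    simp only [hentry, hfrl, hfrr]
    rcases s with s | s
    · rw [hfrl]
      simp only [Matrix.fromBlocks_apply₁₁, Matrix.fromBlocks_apply₁₂, Matrix.zero_apply, zero_smul,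
        Finset.sum_const_zero, add_zero]
      rw [Fin.sum_univ_two, hR]
      fin_cases s
      · exact hab
      · exact hJk'
    · rw [hfrr]
      simp only [Matrix.fromBlocks_apply₂₁, Matrix.fromBlocks_apply₂₂, Matrix.zero_apply, zero_smul,
        Finset.sum_const_zero, zero_add]
      rw [hM s, map_sum]
      simp only [map_smul]
  have hb := (DD_basis (h.nd hS hZ hw) M6 hne).2
  have hfun : (fun i => ∑ j, M6 i j • fr k f j) = fr k' f' := by
    funext i; exact (hfr i).symm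
  rw [hfun] at hb
  rw [hb, hdet6, sign_mul, sign_pos hpos, one_mul]

theorem FrameAt.span85 {Φ : Sys} (hS : Symm Φ) {w : W} (hw : w ∈ D1 Φ) {k : V} {f : Fin 4 → V}
    (h : FrameAt Φ w k f) : Submodule.span ℝ (Set.range f) = Fp (A Φ w) := by
  apply Submodule.eq_of_le_of_finrank_eq
  · rw [Submodule.span_le]
    rintro _ ⟨i, rfl⟩
    exact h.mem i
  · rw [finrank_Fp85 hS hw, finrank_span_eq_card h.li, Fintype.card_fin]

theorem FrameAt.matrix85 {Φ : Sys} (hS : Symm Φ) {w : W} (hw : w ∈ D1 Φ) {k : V}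
    {f : Fin 4 → V} (h : FrameAt Φ w k f) (f' : Fin 4 → V) (h' : ∀ i, f' i ∈ Fp (A Φ w)) :
    ∃ M : Matrix (Fin 4) (Fin 4) ℝ, ∀ i, f' i = ∑ j, M i j • f j := by
  have : ∀ i, ∃ c : Fin 4 → ℝ, ∑ j, c j • f j = f' i := by
    intro i
    have hi := h' i
    rw [← h.span85 hS hw] at hi
    exact (Submodule.mem_span_range_iff_exists_fun ℝ).mp hi
  choose M hM using this
  exact ⟨M, fun i => (hM i).symm⟩

theorem abs_DD_frame {Φ : Sys} (hS : Symm Φ) (hZ : ZeroFree Φ) {w : W} (hw : w ∈ D1 Φ)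
    {k : V} {f : Fin 4 → V} (h : FrameAt Φ w k f) : |DD Φ w (fr k f)| = dd Φ w := by
  have hex : ∃ kf : V × (Fin 4 → V), FrameAt Φ w kf.1 kf.2 := ⟨(k, f), h⟩
  unfold dd
  rw [dif_pos hex]
  obtain ⟨M, hM⟩ := h.matrix85 hS hw hex.choose.2 hex.choose_spec.mem
  rw [DD_frame_change hS hZ hw h hex.choose_spec M hM, abs_mul]
  have hMdet := FrameAt.det_ne_zero hex.choose_spec M hM
  have : |(SignType.sign M.det : ℤ)| = 1 := by
    rcases lt_or_gt_of_ne hMdet with h1 | h1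
    · rw [sign_neg h1]; rfl
    · rw [sign_pos h1]; rfl
  rw [this, one_mul]

theorem fr_J (k : V) (f : Fin 4 → V) :
    fr (J k) (fun j => J (f j)) = fun j => J (fr k f j) := by
  have hJ : ∀ z, J1 (J z) = J (J1 z) := by
    intro z
    rw [J1_apply, J1_apply, map_add]
  funext i
  fin_cases i
  · rfl
  · rfl
  · exact hJ _
  · exact hJ _
  · exact hJ _
  · exact hJ _

theorem FrameAt.negJ {Φ : Sys} (hS : Symm Φ) {w : W}
    {k : V} {f : Fin 4 → V} (h : FrameAt Φ w k f) :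
    FrameAt Φ (-w) (J k) (fun j => J (f j)) := by
  refine ⟨?_, ?_, ?_, ?_⟩
  · intro h0
    have := norm_J k
    rw [h0, norm_zero] at this
    exact h.k_ne (norm_eq_zero.1 this.symm)
  · rw [A_neg]
    change -(A Φ w (J k)) = 0
    rw [A_J, h.k_ker, map_zero, neg_zero, neg_zero]
  · exact h.li.map' (J : V →ₗ[ℝ] V) (LinearMap.ker_eq_bot.2 (fun x y hxy => Jis85.injective hxy))
  · intro j
    rw [A_neg]
    exact J_mem_Fn hS (h.mem j)

theorem DD_frame_neg {Φ : Sys} (hS : Symm Φ) (hZ : ZeroFree Φ) {w : W} (hw : w ∈ D1 Φ)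
    {k : V} {f : Fin 4 → V} (h : FrameAt Φ w k f) :
    FrameAt Φ (-w) (J k) (fun j => J (f j)) ∧
    DD Φ (-w) (fr (J k) (fun j => J (f j))) = - DD Φ w (fr k f) := by
  refine ⟨h.negJ hS, ?_⟩
  rw [fr_J]
  exact (DD_neg (h.nd hS hZ hw)).2

theorem neg_mem_D1' {Φ : Sys} {w : W} (hw : w ∈ D1 Φ) : -w ∈ D1 Φ := by
  refine ⟨by rw [norm_neg]; exact hw.1, ?_⟩
  have h2 : Module.finrank ℝ (Kr (A Φ w)) = 2 := hw.2
  have h3 : Kr (A Φ (-w)) = Kr (A Φ w) := by rw [A_neg, Kr_neg]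
  have h4 : Module.finrank ℝ (Kr (A Φ (-w))) = 2 := by rw [h3]; exact h2
  exact h4

theorem neg_mem_AA {Φ : Sys} (hS : Symm Φ) (hZ : ZeroFree Φ) {w : W} (hw : w ∈ AA Φ) :
    -w ∈ AA Φ := by
  obtain ⟨hw1, hdd⟩ := hw
  refine ⟨neg_mem_D1' hw1, ?_⟩
  obtain ⟨k, f, h⟩ := exists_frameAt hS hw1
  obtain ⟨h1, h2⟩ := DD_frame_neg hS hZ hw1 h
  rw [← abs_DD_frame hS hZ (neg_mem_D1' hw1) h1, h2, abs_neg, abs_DD_frame hS hZ hw1 h]
  exact hdd

end

end Pool.Agent.Flip
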