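import Pool.Agent.Lib_helper47.Flip.Base

/-! # Block ALPHA: the total degree of the system over `z ≠ 0` is `4` -/

set_option autoImplicit false

namespace Pool.Agent.Flip

open scoped InnerProductSpace ComplexConjugate
open Complex Set Metric Filter Topology Pool.Agent.Deg47

noncomputable section

theorem det_prodMap' {E F : Type*} [NormedAddCommGroup E] [NormedSpace ℝ E]
    [FiniteDimensional ℝ E] [NormedAddCommGroup F] [NormedSpace ℝ F] [FiniteDimensional ℝ F]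
    (A : E →L[ℝ] E) (B : F →L[ℝ] F) : (A.prodMap B).det = A.det * B.det := by
  unfold ContinuousLinearMap.det
  exact LinearMap.det_prodMap (A : E →ₗ[ℝ] E) (B : F →ₗ[ℝ] F)

theorem det_smul_id {E : Type*} [NormedAddCommGroup E] [NormedSpace ℝ E]
    [FiniteDimensional ℝ E] (c : ℝ) :
    (c • ContinuousLinearMap.id ℝ E).det = c ^ Module.finrank ℝ E := by
  unfold ContinuousLinearMap.det
  have : ((c • ContinuousLinearMap.id ℝ E : E →L[ℝ] E) : E →ₗ[ℝ] E)
      = c • (LinearMap.id : E →ₗ[ℝ] E) := rfl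
  rw [this, LinearMap.det_smul, LinearMap.det_id, mul_one]

/-- scalar lemma -/
theorem scalar_aux {a N x t : ℝ} (ha : 0 < a) (hN : 0 < N) (hx : 0 ≤ x) (ht0 : 0 ≤ t) (ht1 : t ≤ 1)
    (h1 : N = ((1 - t) * a + t * N) * x) (h2 : (1 - t) * (x ^ 2 - 1) + t * (N - a) = 0) :
    a = N := by
  rcases lt_trichotomy a N with h | h | h
  · exfalso
    rcases eq_or_lt_of_le ht1 with h' | h'
    · rw [h'] at h2; linarith
    · have hγ : (1 - t) * a + t * N < N := by nlinarith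
      have hγ0 : 0 < (1 - t) * a + t * N := by nlinarith
      have hx1 : 1 < x := by
        by_contra hcon
        push Not at hcon
        nlinarith
      have : 0 < (1 - t) * (x ^ 2 - 1) := mul_pos (by linarith) (by nlinarith)
      nlinarith
  · exact h
  · exfalso
    rcases eq_or_lt_of_le ht1 with h' | h'
    · rw [h'] at h2; linarith
    · have hγ : N < (1 - t) * a + t * N := by nlinarith
      have hx1 : x < 1 := by
        by_contra hcon
        push Not at hcon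
        nlinarith
      have : (1 - t) * (x ^ 2 - 1) < 0 := mul_neg_of_pos_of_neg (by linarith) (by nlinarith)
      nlinarith

/-- The degree at the regular zero. -/
theorem deg_regular {h : V → W} (hh : Continuous h) {S : V →L[ℝ] V} (hS : S.det ≠ 0) {y z₀ : V}
    (hz₀ : S z₀ = y) {σ : ℝ} (hσ : σ = 1 ∨ σ = -1) (hQ : h z₀ ≠ 0) {O : Set EE} (hO : IsOpen O)
    (hOσ : ∀ p ∈ O, 0 < σ * p.2.1)
    (hmem : (((σ * ‖h z₀‖⁻¹) • h z₀, σ * ‖h z₀‖, z₀) : EE) ∈ O) :
    deg (fun p : EE => (h p.2.2 - p.2.1 • p.1, ‖p.1‖ ^ 2 - 1, S p.2.2 - y)) O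
      = (SignType.sign S.det : ℤ) := by
  obtain ⟨Q, hQe⟩ : ∃ Q : W, Q = h z₀ := ⟨_, rfl⟩
  rw [← hQe] at hQ hmem
  have hN : 0 < ‖Q‖ := norm_pos_iff.2 hQ
  have hσ2 : σ * σ = 1 := by rcases hσ with h | h <;> rw [h] <;> norm_num
  have hSinj : ∀ z, S z = y → z = z₀ := by
    intro z hz
    exact (det_ne_zero_iff.1 hS) (hz.trans hz₀.symm)
  obtain ⟨p₀, hp₀⟩ : ∃ p₀ : EE, p₀ = ((σ * ‖Q‖⁻¹) • Q, σ * ‖Q‖, z₀) := ⟨_, rfl⟩
  rw [← hp₀] at hmem
  obtain ⟨H, hH⟩ : ∃ H : ℝ → EE → EE, H = fun t p =>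
    ((1 - t) • (h p.2.2 - p.2.1 • p.1) + t • (Q - (σ * ‖Q‖) • p.1),
      (1 - t) * (‖p.1‖ ^ 2 - 1) + t * (‖Q‖ - σ * p.2.1), S p.2.2 - y) := ⟨_, rfl⟩
  have h0 : H 0 = fun p : EE => (h p.2.2 - p.2.1 • p.1, ‖p.1‖ ^ 2 - 1, S p.2.2 - y) := by
    rw [hH]; funext p
    simp only [sub_zero, one_smul, zero_smul, add_zero, one_mul, zero_mul]
  obtain ⟨L, hL⟩ : ∃ L : EE →L[ℝ] EE, L = ((-(σ * ‖Q‖)) • ContinuousLinearMap.id ℝ W).prodMap
    (((-σ) • ContinuousLinearMap.id ℝ ℝ).prodMap S) := ⟨_, rfl⟩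
  have hLx : ∀ x : EE, L x = ((-(σ * ‖Q‖)) • x.1, -σ * x.2.1, S x.2.2) := fun x => by
    rw [hL]; rfl
  have h1 : H 1 = fun p : EE => L (p - p₀) := by
    rw [hH]; funext p
    rw [hLx, hp₀]
    refine Prod.ext ?_ (Prod.ext ?_ ?_)
    · have e0 : ((1 - (1 : ℝ)) • (h p.2.2 - p.2.1 • p.1) + (1 : ℝ) • (Q - (σ * ‖Q‖) • p.1))
          = Q - (σ * ‖Q‖) • p.1 := by
        rw [sub_self, zero_smul, one_smul, zero_add]
      simp only [Prod.fst_sub]
      rw [e0, smul_sub, smul_smul]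
      have e : -(σ * ‖Q‖) * (σ * ‖Q‖⁻¹) = -1 := by
        have : ‖Q‖ * ‖Q‖⁻¹ = 1 := mul_inv_cancel₀ hN.ne'
        linear_combination (-(‖Q‖ * ‖Q‖⁻¹)) * hσ2 - this
      rw [e, neg_smul, neg_smul, one_smul]
      abel
    · simp only [sub_self, zero_mul, one_mul, zero_add, Prod.snd_sub, Prod.fst_sub]
      linear_combination (-‖Q‖) * hσ2
    · simp only [Prod.snd_sub, map_sub, hz₀]
  have hdet : L.det = ‖Q‖ ^ 7 * S.det := by
    rw [hL, det_prodMap', det_prodMap', det_smul_id, det_smul_id, finrank_W,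
      Module.finrank_self, pow_one]
    rcases hσ with h | h <;> rw [h] <;> ring
  have hhom := deg_homotopy H hO (K := {p₀}) ?_ isCompact_singleton
    (singleton_subset_iff.2 hmem) ?_
  · rw [h0, h1] at hhom
    rw [hhom, deg_affine L ?_ hO hmem, hdet, sign_mul, sign_pos (by positivity), one_mul]
    rw [hdet]; positivity
  · rw [hH]
    refine Continuous.continuousOn ?_
    have c1 : Continuous fun p : ℝ × EE => h p.2.2.2 := hh.comp (by fun_prop)
    have c2 : Continuous fun p : ℝ × EE => S p.2.2.2 := S.continuous.comp (by fun_prop)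
    fun_prop
  · intro t ht p hp h0
    rw [hH] at h0
    simp only [Prod.mk_eq_zero] at h0
    obtain ⟨e1, e2, e3⟩ := h0
    have hz : p.2.2 = z₀ := hSinj _ (sub_eq_zero.1 e3)
    rw [hz, ← hQe] at e1
    have hpos := hOσ p hp
    have e4 : Q = ((1 - t) * p.2.1 + t * (σ * ‖Q‖)) • p.1 := by
      rw [add_smul, mul_smul, mul_smul]
      have : (1 - t) • (Q - p.2.1 • p.1) + t • (Q - (σ * ‖Q‖) • p.1)
          = Q - ((1 - t) • (p.2.1 • p.1) + t • ((σ * ‖Q‖) • p.1)) := by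
        rw [smul_sub, smul_sub, sub_smul, one_smul]; abel
      rw [this] at e1
      exact sub_eq_zero.1 e1
    have e5 : (1 - t) * p.2.1 + t * (σ * ‖Q‖) = σ * ((1 - t) * (σ * p.2.1) + t * ‖Q‖) := by
      linear_combination (-((1 - t) * p.2.1)) * hσ2
    have hγ : 0 < (1 - t) * (σ * p.2.1) + t * ‖Q‖ := by
      rcases eq_or_lt_of_le ht.1 with h' | h'
      · rw [← h']; simpa using hpos
      · have := mul_nonneg (sub_nonneg.2 ht.2) hpos.le
        have := mul_pos h' hN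
        linarith
    have hσabs : |σ| = 1 := by rcases hσ with h | h <;> rw [h] <;> norm_num
    have e6 : ‖Q‖ = ((1 - t) * (σ * p.2.1) + t * ‖Q‖) * ‖p.1‖ := by
      conv_lhs => rw [e4]
      rw [e5, norm_smul, Real.norm_eq_abs, abs_mul, hσabs, one_mul, abs_of_pos hγ]
    have e7 := scalar_aux hpos hN (norm_nonneg _) ht.1 ht.2 e6 e2
    have e8 : p.2.1 = σ * ‖Q‖ := by
      rw [← e7]; linear_combination (-p.2.1) * hσ2
    have e9 : p.1 = (σ * ‖Q‖⁻¹) • Q := by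
      rw [e8] at e4
      have e10 : (1 - t) * (σ * ‖Q‖) + t * (σ * ‖Q‖) = σ * ‖Q‖ := by ring
      rw [e10] at e4
      have e11 : (σ * ‖Q‖⁻¹) • Q = (σ * ‖Q‖⁻¹) • ((σ * ‖Q‖) • p.1) := by rw [← e4]
      rw [e11, smul_smul]
      have : σ * ‖Q‖⁻¹ * (σ * ‖Q‖) = 1 := by
        have : ‖Q‖⁻¹ * ‖Q‖ = 1 := inv_mul_cancel₀ hN.ne'
        linear_combination (‖Q‖⁻¹ * ‖Q‖) * hσ2 + this
      rw [this, one_smul]
    rw [mem_singleton_iff, hp₀]
    exact Prod.ext e9 (Prod.ext e8 hz)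

/-- bound on `A` on the unit sphere -/
theorem exists_A_bound (Φ : Sys) : ∃ M > 0, ∀ w : W, ‖w‖ = 1 → ‖A Φ w‖ ≤ M := by
  obtain ⟨M, hM⟩ := (isCompact_sphere (0 : W) 1).exists_bound_of_continuousOn
    (continuous_A Φ).continuousOn
  refine ⟨max M 1, by positivity, fun w hw => ?_⟩
  exact (hM w (by rw [mem_sphere_zero_iff_norm]; exact hw)).trans (le_max_left _ _)

theorem exists_q_ubound (Φ : Sys) (R : ℝ) : ∃ M > 0, ∀ z : V, ‖z‖ ≤ R → ‖q Φ z‖ ≤ M := by
  obtain ⟨M, hM⟩ := (isCompact_closedBall (0 : V) R).exists_bound_of_continuousOn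
    (continuous_q Φ).continuousOn
  refine ⟨max M 1, by positivity, fun z hz => ?_⟩
  exact (hM z (by rw [mem_closedBall_zero_iff]; exact hz)).trans (le_max_left _ _)

theorem continuous_Aapp (Φ : Sys) : Continuous fun p : EE => A Φ p.1 p.2.2 :=
  ((continuous_A Φ).comp continuous_fst).clm_apply (by fun_prop)

theorem norm_one_of_sq {w : W} (h : ‖w‖ ^ 2 - 1 = 0) : ‖w‖ = 1 := by
  have h1 : ‖w‖ ^ 2 = 1 ^ 2 := by linarith
  exact (pow_left_inj₀ (norm_nonneg _) zero_le_one two_ne_zero).1 h1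

/-- The system with target `(0,0,y)`. -/
def sysY (Φ : Sys) (y : V) (p : EE) : EE :=
  (q Φ p.2.2 - p.2.1 • p.1, ‖p.1‖ ^ 2 - 1, A Φ p.1 p.2.2 - y)

theorem norm_EE_le {p : EE} {R : ℝ} (h1 : ‖p.1‖ ≤ R) (h2 : |p.2.1| ≤ R) (h3 : ‖p.2.2‖ ≤ R) :
    p ∈ closedBall (0 : EE) R := by
  rw [mem_closedBall_zero_iff]
  rw [Prod.norm_def, Prod.norm_def]
  exact max_le h1 (max_le (by rwa [Real.norm_eq_abs]) h3)

/-- Degree on `c > 0` resp. `c < 0`. -/
theorem deg_sysY_half {Φ : Sys} (hZ : ZeroFree Φ) {y : V} (hy : y ≠ 0)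
    {σ : ℝ} (hσ : σ = 1 ∨ σ = -1) :
    Adm (sysY Φ y) {p : EE | 0 < σ * p.2.1} ∧
    deg (sysY Φ y) {p : EE | 0 < σ * p.2.1} = 1 := by
  obtain ⟨m, hm, hmq⟩ := exists_q_bound hZ
  obtain ⟨M, hM, hMA⟩ := exists_A_bound Φ
  have hσ2 : σ * σ = 1 := by rcases hσ with h | h <;> rw [h] <;> norm_num
  have hσabs : |σ| = 1 := by rcases hσ with h | h <;> rw [h] <;> norm_num
  have hyn : 0 < ‖y‖ := norm_pos_iff.2 hy
  obtain ⟨m', hm', hm'm, hm'1⟩ : ∃ m' > 0, m' ≤ m ∧ m' ≤ 1 :=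
    ⟨min m 1, lt_min hm one_pos, min_le_left _ _, min_le_right _ _⟩
  obtain ⟨Mq, hMq, hMqq⟩ := exists_q_ubound Φ (‖y‖ / m')
  obtain ⟨c₀, hc₀e⟩ : ∃ c₀ : ℝ, c₀ = m * (‖y‖ / (M + 1)) ^ 2 := ⟨_, rfl⟩
  have hc₀ : 0 < c₀ := by rw [hc₀e]; positivity
  obtain ⟨R, hR⟩ : ∃ R : ℝ, R = 1 + ‖y‖ / m' + Mq := ⟨_, rfl⟩
  have hdiv : 0 < ‖y‖ / m' := by positivity
  obtain ⟨O, hOe⟩ : ∃ O : Set EE, O = {p : EE | 0 < σ * p.2.1} := ⟨_, rfl⟩
  have hO : IsOpen O := by
    rw [hOe]; exact isOpen_lt continuous_const (by fun_prop)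
  obtain ⟨K, hKe⟩ : ∃ K : Set EE, K = closedBall (0 : EE) R ∩ {p : EE | c₀ ≤ σ * p.2.1} := ⟨_, rfl⟩
  have hK : IsCompact K := by
    rw [hKe]
    exact (isCompact_closedBall _ _).inter_right (isClosed_le continuous_const (by fun_prop))
  have hKO : K ⊆ O := by
    rw [hKe, hOe]; rintro p ⟨_, hp⟩; exact lt_of_lt_of_le hc₀ hp
  obtain ⟨H, hH⟩ : ∃ H : ℝ → EE → EE, H = fun r p =>
    (q Φ p.2.2 - p.2.1 • p.1, ‖p.1‖ ^ 2 - 1,
      (1 - r) • A Φ p.1 p.2.2 + r • (σ • p.2.2) - y) := ⟨_, rfl⟩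
  have h0 : H 0 = sysY Φ y := by
    rw [hH]; funext p; unfold sysY
    beta_reduce
    rw [sub_zero, one_smul, zero_smul, add_zero]
  have h1 : H 1 = fun p : EE => (q Φ p.2.2 - p.2.1 • p.1, ‖p.1‖ ^ 2 - 1,
      (σ • ContinuousLinearMap.id ℝ V) p.2.2 - y) := by
    rw [hH]; funext p
    beta_reduce
    rw [sub_self, one_smul, zero_smul, zero_add]
    rfl
  have hcont : Continuous fun p : ℝ × EE => H p.1 p.2 := by
    rw [hH]
    have c1 : Continuous fun p : ℝ × EE => q Φ p.2.2.2 := (continuous_q Φ).comp (by fun_prop)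
    have c2 : Continuous fun p : ℝ × EE => A Φ p.2.1 p.2.2.2 :=
      (continuous_Aapp Φ).comp continuous_snd
    fun_prop
  have hz : ∀ r ∈ Icc (0 : ℝ) 1, ∀ p ∈ O, H r p = 0 → p ∈ K := by
    intro r hr p hp h0
    rw [hH] at h0
    simp only [Prod.mk_eq_zero] at h0
    obtain ⟨e1, e2, e3⟩ := h0
    have hw := norm_one_of_sq e2
    have hpos : 0 < σ * p.2.1 := by rw [hOe] at hp; exact hp
    have hqc : q Φ p.2.2 = p.2.1 • p.1 := sub_eq_zero.1 e1
    have hform : ⟪A Φ p.1 p.2.2, p.2.2⟫_ℝ = p.2.1 := by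
      rw [inner_A_self, hqc, inner_smul_right, real_inner_self_eq_norm_sq, hw]; ring
    have hnq : ‖q Φ p.2.2‖ = σ * p.2.1 := by
      rw [hqc, norm_smul, hw, mul_one, Real.norm_eq_abs, ← abs_of_pos hpos, abs_mul, hσabs, one_mul]
    have hmz := hmq p.2.2
    rw [hnq] at hmz
    have e4 : (1 - r) • A Φ p.1 p.2.2 + r • (σ • p.2.2) = y := sub_eq_zero.1 e3
    have e5 : (1 - r) * (σ * p.2.1) + r * ‖p.2.2‖ ^ 2 ≤ ‖y‖ * ‖p.2.2‖ := by
      have h1 : ⟪y, p.2.2⟫_ℝ = (1 - r) * p.2.1 + r * (σ * ‖p.2.2‖ ^ 2) := by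
        rw [← e4, inner_add_left, inner_smul_left, inner_smul_left, inner_smul_left,
          hform, real_inner_self_eq_norm_sq]
        simp
      have h2 : (1 - r) * (σ * p.2.1) + r * ‖p.2.2‖ ^ 2 = σ * ⟪y, p.2.2⟫_ℝ := by
        rw [h1]; linear_combination (-(r * ‖p.2.2‖ ^ 2)) * hσ2
      rw [h2]
      calc σ * ⟪y, p.2.2⟫_ℝ ≤ |σ * ⟪y, p.2.2⟫_ℝ| := le_abs_self _
        _ = |⟪y, p.2.2⟫_ℝ| := by rw [abs_mul, hσabs, one_mul]
        _ ≤ _ := abs_real_inner_le_norm _ _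
    have hzne : 0 < ‖p.2.2‖ := by
      rw [norm_pos_iff]
      intro hz0
      rw [hz0] at e4
      simp only [map_zero, smul_zero, add_zero] at e4
      exact hy e4.symm
    -- upper bound for `z`
    have e6 : ‖p.2.2‖ ≤ ‖y‖ / m' := by
      rw [le_div_iff₀ hm']
      have h3 : (1 - r) * (m' * ‖p.2.2‖ ^ 2) + r * (m' * ‖p.2.2‖ ^ 2) ≤ ‖y‖ * ‖p.2.2‖ := by
        refine le_trans (add_le_add ?_ ?_) e5
        · refine mul_le_mul_of_nonneg_left ?_ (sub_nonneg.2 hr.2)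
          refine le_trans ?_ hmz
          gcongr
        · refine mul_le_mul_of_nonneg_left ?_ hr.1
          exact mul_le_of_le_one_left (by positivity) hm'1
      have h4 : (m' * ‖p.2.2‖) * ‖p.2.2‖ ≤ ‖y‖ * ‖p.2.2‖ := by nlinarith
      have := le_of_mul_le_mul_right h4 hzne
      linarith
    -- lower bound for `z`
    have e7 : ‖y‖ / (M + 1) ≤ ‖p.2.2‖ := by
      rw [div_le_iff₀ (by positivity), ← e4]
      refine (norm_add_le _ _).trans ?_
      rw [norm_smul, norm_smul, norm_smul, Real.norm_of_nonneg hr.1,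
        Real.norm_of_nonneg (sub_nonneg.2 hr.2), Real.norm_eq_abs, hσabs, one_mul]
      have h3 : ‖A Φ p.1 p.2.2‖ ≤ M * ‖p.2.2‖ :=
        ((A Φ p.1).le_opNorm _).trans (by gcongr; exact hMA _ hw)
      have h4 : (1 - r) * ‖A Φ p.1 p.2.2‖ ≤ 1 * (M * ‖p.2.2‖) := by
        have := hr.1
        gcongr
        linarith
      have h5 : r * ‖p.2.2‖ ≤ 1 * ‖p.2.2‖ := by
        have := hr.2
        gcongr
      linarith
    rw [hKe]
    refine ⟨norm_EE_le ?_ ?_ ?_, ?_⟩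
    · rw [hw, hR]; linarith
    · have h3 := hMqq _ e6
      rw [hnq] at h3
      have h4 : |p.2.1| = σ * p.2.1 := by
        rw [← abs_of_pos hpos, abs_mul, hσabs, one_mul]
      rw [h4, hR]; linarith
    · rw [hR]; linarith
    · simp only [mem_ofPred_eq]
      refine le_trans ?_ hmz
      rw [hc₀e]
      gcongr
  have hhom := deg_homotopy H hO hcont.continuousOn hK hKO hz
  have hadm : Adm (sysY Φ y) O := by
    refine Adm.of_subset_compact hO ?_ hK hKO (fun p hp h => hz 0 ⟨le_rfl, zero_le_one⟩ p hp ?_)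
    · rw [← h0]
      exact (hcont.comp (f := fun p : EE => ((0 : ℝ), p)) (by fun_prop)).continuousOn
    · rw [h0]; exact h
  rw [← hOe]
  refine ⟨hadm, ?_⟩
  rw [← h0, hhom, h1]
  have hdetS : (σ • ContinuousLinearMap.id ℝ V).det = 1 := by
    rw [det_smul_id, finrank_V]
    rcases hσ with h | h <;> rw [h] <;> norm_num
  have hz₀ : (σ • ContinuousLinearMap.id ℝ V) (σ • y) = y := by
    change σ • (σ • y) = y
    rw [smul_smul, hσ2, one_smul]
  have hqz₀ : q Φ (σ • y) ≠ 0 := by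
    intro h
    have := hZ _ h
    rw [smul_eq_zero] at this
    rcases this with h | h
    · rw [h] at hσ2; norm_num at hσ2
    · exact hy h
  have hfin := deg_regular (continuous_q Φ) (S := σ • ContinuousLinearMap.id ℝ V)
    (by rw [hdetS]; exact one_ne_zero) hz₀ hσ hqz₀ hO
    (fun p hp => by rw [hOe] at hp; exact hp) (by
      rw [hOe]
      simp only [mem_ofPred_eq]
      rw [← mul_assoc, hσ2, one_mul]
      exact norm_pos_iff.2 hqz₀)
  rw [hdetS] at hfin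
  rw [hfin]
  simp

/-- Total degree with target `(0,0,y)`. -/
theorem deg_sysY {Φ : Sys} (hZ : ZeroFree Φ) {y : V} (hy : y ≠ 0) :
    Adm (sysY Φ y) univ ∧ deg (sysY Φ y) univ = 2 := by
  obtain ⟨a1, d1⟩ := deg_sysY_half hZ hy (σ := 1) (Or.inl rfl)
  obtain ⟨a2, d2⟩ := deg_sysY_half hZ hy (σ := -1) (Or.inr rfl)
  have hcont : Continuous (sysY Φ y) := by
    unfold sysY
    have c1 : Continuous fun p : EE => q Φ p.2.2 := (continuous_q Φ).comp (by fun_prop)
    have c2 := continuous_Aapp Φ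
    fun_prop
  have hne : ∀ p : EE, sysY Φ y p = 0 → p.2.1 ≠ 0 := by
    intro p h0 hc
    unfold sysY at h0
    simp only [Prod.mk_eq_zero] at h0
    obtain ⟨e1, e2, e3⟩ := h0
    rw [hc, zero_smul, sub_zero] at e1
    have := hZ _ e1
    rw [this, map_zero, zero_sub, neg_eq_zero] at e3
    exact hy e3
  have hcov : ∀ p : EE, sysY Φ y p = 0 → p ∈ {p : EE | 0 < (1 : ℝ) * p.2.1} ∪
      {p : EE | 0 < (-1 : ℝ) * p.2.1} := by
    intro p h0
    rcases lt_or_gt_of_ne (hne p h0) with h | h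
    · right; simp only [mem_ofPred_eq]; linarith
    · left; simp only [mem_ofPred_eq]; linarith
  have hadm : Adm (sysY Φ y) univ := by
    refine ⟨isOpen_univ, hcont.continuousOn, ?_⟩
    have : univ ∩ sysY Φ y ⁻¹' {0} = ({p : EE | 0 < (1 : ℝ) * p.2.1} ∩ sysY Φ y ⁻¹' {0}) ∪
        ({p : EE | 0 < (-1 : ℝ) * p.2.1} ∩ sysY Φ y ⁻¹' {0}) := by
      rw [← union_inter_distrib_right]
      ext p
      simp only [mem_inter_iff, mem_univ, true_and]
      exact ⟨fun h => ⟨hcov p h, h⟩, fun h => h.2⟩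
    rw [this]
    exact a1.comp.union a2.comp
  refine ⟨hadm, ?_⟩
  have hU := a1.isOpen.union a2.isOpen
  rw [← deg_excision hadm hU (subset_univ _) (fun p _ h => hcov p h),
    deg_union a1.isOpen a2.isOpen ?_ (hadm.mono hU (subset_univ _) (fun p _ h => hcov p h)), d1, d2]
  · norm_num
  · rw [disjoint_left]
    intro p h1 h2
    simp only [mem_ofPred_eq] at h1 h2
    linarith

/-- Total degree of the system over the whole space. -/
theorem deg_sys0_univ {Φ : Sys} (hZ : ZeroFree Φ) (u : W) :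
    Adm (sys0 Φ u) univ ∧ deg (sys0 Φ u) univ = 2 := by
  obtain ⟨m, hm, hmq⟩ := exists_q_bound hZ
  have hnt : Nontrivial V := by
    refine Module.nontrivial_of_finrank_pos (R := ℝ) ?_
    rw [finrank_V]; norm_num
  obtain ⟨y, hy⟩ := exists_ne (0 : V)
  obtain ⟨Rz, hRz⟩ : ∃ Rz : ℝ, Rz = 1 + (‖y‖ + 2 * ‖u‖) / m := ⟨_, rfl⟩
  have hRz1 : 1 ≤ Rz := by rw [hRz]; have : 0 ≤ (‖y‖ + 2 * ‖u‖) / m := by positivity
                           linarith
  obtain ⟨R, hR⟩ : ∃ R : ℝ, R = Rz + (‖y‖ * Rz + ‖u‖) := ⟨_, rfl⟩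
  obtain ⟨H, hH⟩ : ∃ H : ℝ → EE → EE, H = fun s p =>
    (q Φ p.2.2 - p.2.1 • p.1 - s • u, ‖p.1‖ ^ 2 - 1, A Φ p.1 p.2.2 - (1 - s) • y) := ⟨_, rfl⟩
  have h0 : H 0 = sysY Φ y := by
    rw [hH]; funext p; unfold sysY
    beta_reduce
    rw [zero_smul, sub_zero, sub_zero, one_smul]
  have h1 : H 1 = sys0 Φ u := by
    rw [hH]; funext p; unfold sys0
    beta_reduce
    rw [one_smul, sub_self, zero_smul, sub_zero]
  have hcont : Continuous fun p : ℝ × EE => H p.1 p.2 := by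
    rw [hH]
    have c1 : Continuous fun p : ℝ × EE => q Φ p.2.2.2 := (continuous_q Φ).comp (by fun_prop)
    have c2 : Continuous fun p : ℝ × EE => A Φ p.2.1 p.2.2.2 :=
      (continuous_Aapp Φ).comp continuous_snd
    fun_prop
  have hK : IsCompact (closedBall (0 : EE) R) := isCompact_closedBall _ _
  have hz : ∀ s ∈ Icc (0 : ℝ) 1, ∀ p ∈ (univ : Set EE), H s p = 0 → p ∈ closedBall (0 : EE) R := by
    intro s hs p _ h0
    rw [hH] at h0
    simp only [Prod.mk_eq_zero] at h0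
    obtain ⟨e1, e2, e3⟩ := h0
    have hw := norm_one_of_sq e2
    have hA : A Φ p.1 p.2.2 = (1 - s) • y := sub_eq_zero.1 e3
    have hqc : q Φ p.2.2 = p.2.1 • p.1 + s • u := by
      have := sub_eq_zero.1 e1
      rw [← this]; abel
    have hform : p.2.1 + s * ⟪p.1, u⟫_ℝ = (1 - s) * ⟪y, p.2.2⟫_ℝ := by
      have h2 := inner_A_self Φ p.1 p.2.2
      rw [hA, hqc, inner_add_right, inner_smul_right, inner_smul_right,
        real_inner_self_eq_norm_sq, hw, inner_smul_left] at h2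
      simp only [conj_trivial] at h2
      linarith
    have hin1 : |⟪p.1, u⟫_ℝ| ≤ ‖u‖ := by
      have := abs_real_inner_le_norm p.1 u
      rwa [hw, one_mul] at this
    have hin2 := abs_real_inner_le_norm y p.2.2
    have hc : |p.2.1| ≤ ‖y‖ * ‖p.2.2‖ + ‖u‖ := by
      have e : p.2.1 = (1 - s) * ⟪y, p.2.2⟫_ℝ - s * ⟪p.1, u⟫_ℝ := by linarith
      rw [e]
      refine (abs_sub _ _).trans ?_
      rw [abs_mul, abs_mul, abs_of_nonneg hs.1, abs_of_nonneg (sub_nonneg.2 hs.2)]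
      have a1 : (1 - s) * |⟪y, p.2.2⟫_ℝ| ≤ 1 * (‖y‖ * ‖p.2.2‖) := by
        have := hs.1
        gcongr
        linarith
      have a2 : s * |⟪p.1, u⟫_ℝ| ≤ 1 * ‖u‖ := by
        have := hs.2
        gcongr
      linarith
    have hz1 : m * ‖p.2.2‖ ^ 2 ≤ ‖y‖ * ‖p.2.2‖ + 2 * ‖u‖ := by
      refine (hmq _).trans ?_
      rw [hqc]
      refine (norm_add_le _ _).trans ?_
      rw [norm_smul, norm_smul, hw, mul_one, Real.norm_eq_abs, Real.norm_of_nonneg hs.1]
      have a2 : s * ‖u‖ ≤ 1 * ‖u‖ := by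
        have := hs.2
        gcongr
      linarith
    have hz2 : ‖p.2.2‖ ≤ Rz := by
      by_contra hcon
      push Not at hcon
      have h3 : 1 < ‖p.2.2‖ := lt_of_le_of_lt hRz1 hcon
      have h4 : m * ‖p.2.2‖ ^ 2 ≤ (‖y‖ + 2 * ‖u‖) * ‖p.2.2‖ := by
        have : 2 * ‖u‖ * 1 ≤ 2 * ‖u‖ * ‖p.2.2‖ := by gcongr
        linarith
      have h5 : m * ‖p.2.2‖ ≤ ‖y‖ + 2 * ‖u‖ := by
        have h6 : (m * ‖p.2.2‖) * ‖p.2.2‖ ≤ (‖y‖ + 2 * ‖u‖) * ‖p.2.2‖ := by linarith
        exact le_of_mul_le_mul_right h6 (by linarith)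
      have h7 : ‖p.2.2‖ ≤ (‖y‖ + 2 * ‖u‖) / m := by
        rw [le_div_iff₀ hm]; linarith
      rw [hRz] at hcon
      linarith
    have hyR : 0 ≤ ‖y‖ * Rz := by positivity
    refine norm_EE_le ?_ ?_ ?_
    · rw [hw, hR]; linarith [norm_nonneg u]
    · have : ‖y‖ * ‖p.2.2‖ ≤ ‖y‖ * Rz := by gcongr
      rw [hR]; linarith
    · rw [hR]; linarith [norm_nonneg u]
  have hhom := deg_homotopy H isOpen_univ hcont.continuousOn hK (subset_univ _) hz
  refine ⟨?_, ?_⟩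
  · refine Adm.of_subset_compact isOpen_univ ?_ hK (subset_univ _)
      (fun p hp h => hz 1 ⟨zero_le_one, le_rfl⟩ p hp ?_)
    · rw [← h1]
      exact (hcont.comp (f := fun p : EE => ((1 : ℝ), p)) (by fun_prop)).continuousOn
    · rw [h1]; exact h
  · rw [← h1, ← hhom, h0, (deg_sysY hZ hy).2]

/-- Degree at the zeros with `z = 0`. -/
theorem deg_trivial_half {Φ : Sys} (hS : Symm Φ) {u : W} (hu0 : u ≠ 0)
    {O : Set EE} (hO : IsOpen O) {σ : ℝ} (hσ : σ = 1 ∨ σ = -1)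
    (hOσ : ∀ p ∈ O, 0 < σ * p.2.1) (hOd : ∀ p ∈ O, (A Φ p.1).det ≠ 0)
    (hmem : (((σ * ‖-u‖⁻¹) • (-u), σ * ‖-u‖, (0 : V)) : EE) ∈ O) :
    deg (sys0 Φ u) O = -1 := by
  have hq0 : q Φ (0 : V) - u = -u := by rw [q_zero, zero_sub]
  have hreg := deg_regular (h := fun z => q Φ z - u) ((continuous_q Φ).sub continuous_const)
    (S := ContinuousLinearMap.id ℝ V) (y := 0) (z₀ := 0) (by
      have := det_smul_id (E := V) 1
      rw [one_smul, one_pow] at this
      rw [this]; exact one_ne_zero) (map_zero _) hσ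
      (by rw [hq0]; exact neg_ne_zero.2 hu0) hO hOσ (by rw [hq0]; exact hmem)
  have hdet1 : (ContinuousLinearMap.id ℝ V).det = 1 := by
    have := det_smul_id (E := V) 1
    rwa [one_smul, one_pow] at this
  rw [hdet1] at hreg
  simp only [sign_one, SignType.coe_one] at hreg
  obtain ⟨F, hF⟩ : ∃ F : EE → EE, F = fun p : EE => (q Φ p.2.2 - u - p.2.1 • p.1, ‖p.1‖ ^ 2 - 1,
      (ContinuousLinearMap.id ℝ V) p.2.2 - 0) := ⟨_, rfl⟩
  have hFc : Continuous F := by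
    rw [hF]
    have c1 : Continuous fun p : EE => q Φ p.2.2 := (continuous_q Φ).comp (by fun_prop)
    fun_prop
  have hunp : 0 < ‖-u‖ := norm_pos_iff.2 (neg_ne_zero.2 hu0)
  have hσ2 : σ * σ = 1 := by rcases hσ with h | h <;> rw [h] <;> norm_num
  have hFz : ∀ p ∈ O, F p = 0 → p ∈ ({((σ * ‖-u‖⁻¹) • (-u), σ * ‖-u‖, (0 : V))} : Set EE) := by
    intro p hp h0
    rw [hF] at h0
    simp only [Prod.mk_eq_zero, sub_zero] at h0
    obtain ⟨e1, e2, e3⟩ := h0
    have hz : p.2.2 = 0 := e3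
    have hw := norm_one_of_sq e2
    rw [hz, q_zero, zero_sub] at e1
    have e4 : -u = p.2.1 • p.1 := sub_eq_zero.1 e1
    have hpos := hOσ p hp
    have hσabs : |σ| = 1 := by rcases hσ with h | h <;> rw [h] <;> norm_num
    have e5 : ‖-u‖ = σ * p.2.1 := by
      rw [e4, norm_smul, hw, mul_one, Real.norm_eq_abs]
      rw [← abs_of_pos hpos, abs_mul, hσabs, one_mul]
    have e6 : p.2.1 = σ * ‖-u‖ := by rw [e5]; linear_combination (-p.2.1) * hσ2
    have e7 : p.1 = (σ * ‖-u‖⁻¹) • (-u) := by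
      have : (σ * ‖-u‖⁻¹) • (-u) = (σ * ‖-u‖⁻¹) • ((σ * ‖-u‖) • p.1) := by
        rw [← e6, ← e4]
      rw [this, smul_smul]
      have h2 : σ * ‖-u‖⁻¹ * (σ * ‖-u‖) = 1 := by
        have : ‖-u‖⁻¹ * ‖-u‖ = 1 := inv_mul_cancel₀ hunp.ne'
        linear_combination (‖-u‖⁻¹ * ‖-u‖) * hσ2 + this
      rw [h2, one_smul]
    rw [mem_singleton_iff]
    exact Prod.ext e7 (Prod.ext e6 hz)
  have hadm : Adm F O := Adm.of_subset_compact hO hFc.continuousOn isCompact_singleton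
    (singleton_subset_iff.2 hmem) hFz
  obtain ⟨M, hM⟩ : ∃ M : EE → EE →L[ℝ] EE, M = fun p =>
    (ContinuousLinearMap.id ℝ W).prodMap ((ContinuousLinearMap.id ℝ ℝ).prodMap (A Φ p.1)) :=
    ⟨_, rfl⟩
  have hMdet : ∀ p, (M p).det = (A Φ p.1).det := by
    intro p
    rw [hM]
    simp only
    rw [det_prodMap', det_prodMap']
    have h1 := det_smul_id (E := W) 1
    have h2 := det_smul_id (E := ℝ) 1
    rw [one_smul, one_pow] at h1 h2
    rw [h1, h2, one_mul, one_mul]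
  have hMc : Continuous M := by
    rw [hM]
    exact Continuous.prod_mapL ℝ continuous_const
      (Continuous.prod_mapL ℝ continuous_const ((continuous_A Φ).comp continuous_fst))
  have hneg : ∀ p ∈ O, (A Φ p.1).det < 0 := by
    intro p hp
    have h1 := hOd p hp
    refine det_neg_of_ker_eq_bot (antiPair hS p.1) finrank_V ?_
    exact LinearMap.ker_eq_bot.2 (det_ne_zero_iff.1 h1)
  have hmul := deg_mul hadm (M := M) hMc.continuousOn (fun p hp => by rw [hMdet]; exact hOd p hp)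
    (σ := -1) (fun p hp => by rw [hMdet, sign_neg (hneg p hp)]; rfl)
  have he : (fun p => M p (F p)) = sys0 Φ u := by
    funext p
    rw [hM, hF]
    unfold sys0
    refine Prod.ext ?_ (Prod.ext rfl ?_)
    · change q Φ p.2.2 - u - p.2.1 • p.1 = q Φ p.2.2 - p.2.1 • p.1 - u
      abel
    · change A Φ p.1 (p.2.2 - 0) = A Φ p.1 p.2.2
      rw [sub_zero]
  rw [he, hF, hreg] at hmul
  rw [hmul]; norm_num

/-- **Block ALPHA.** -/
theorem alpha {Φ : Sys} (hS : Symm Φ) (hZ : ZeroFree Φ) {u : W} (hu0 : u ≠ 0)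
    (hu : ∀ w ∈ D Φ, ∀ c : ℝ, c • w ≠ u) : deg (sys0 Φ u) (dom univ) = 4 := by
  obtain ⟨hadm, htot⟩ := deg_sys0_univ hZ u
  have hunp : 0 < ‖-u‖ := norm_pos_iff.2 (neg_ne_zero.2 hu0)
  -- the two trivial zeros
  obtain ⟨P, hP⟩ : ∃ P : ℝ → EE, P = fun σ => ((σ * ‖-u‖⁻¹) • (-u), σ * ‖-u‖, (0 : V)) := ⟨_, rfl⟩
  have hσ : ∀ σ : ℝ, σ = 1 ∨ σ = -1 → σ * σ = 1 := by
    intro σ h; rcases h with h | h <;> rw [h] <;> norm_num
  have hnotD : ∀ σ : ℝ, σ = 1 ∨ σ = -1 → (A Φ (P σ).1).det ≠ 0 := by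
    intro σ h hdet
    have hnorm : ‖(P σ).1‖ = 1 := by
      rw [hP]
      simp only
      rw [norm_smul, norm_mul, norm_inv, norm_norm, Real.norm_eq_abs]
      have : |σ| = 1 := by rcases h with h | h <;> rw [h] <;> norm_num
      rw [this, one_mul, inv_mul_cancel₀ hunp.ne']
    have hinj : ¬ Function.Injective (A Φ (P σ).1) := fun hi => (det_ne_zero_iff.2 hi) hdet
    have hex : ∃ z : V, z ≠ 0 ∧ A Φ (P σ).1 z = 0 := by
      by_contra hcon
      push Not at hcon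
      refine hinj ?_
      rw [injective_iff_map_eq_zero]
      intro z hz
      by_contra hz0
      exact hcon z hz0 hz
    refine hu _ ⟨hnorm, hex⟩ (-(σ * ‖-u‖)) ?_
    rw [hP]
    simp only
    rw [smul_smul]
    have : -(σ * ‖-u‖) * (σ * ‖-u‖⁻¹) = -1 := by
      have : ‖-u‖ * ‖-u‖⁻¹ = 1 := mul_inv_cancel₀ hunp.ne'
      linear_combination (-(‖-u‖ * ‖-u‖⁻¹)) * hσ σ h - this
    rw [this, neg_smul, one_smul, neg_neg]
  have hdetc : Continuous fun p : EE => (A Φ p.1).det := by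
    exact ContinuousLinearMap.continuous_det.comp ((continuous_A Φ).comp continuous_fst)
  obtain ⟨δ, hδ, hδ1, hδ2⟩ : ∃ δ > 0, δ < |(A Φ (P 1).1).det| ∧ δ < |(A Φ (P (-1)).1).det| := by
    have h1 := abs_pos.2 (hnotD 1 (Or.inl rfl))
    have h2 := abs_pos.2 (hnotD (-1) (Or.inr rfl))
    refine ⟨min |(A Φ (P 1).1).det| |(A Φ (P (-1)).1).det| / 2, by positivity, ?_, ?_⟩
    · have := min_le_left |(A Φ (P 1).1).det| |(A Φ (P (-1)).1).det|
      linarith
    · have := min_le_right |(A Φ (P 1).1).det| |(A Φ (P (-1)).1).det|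
      linarith
  obtain ⟨V₁, hV₁⟩ : ∃ V₁ : Set EE, V₁ = {p : EE | δ < |(A Φ p.1).det|} := ⟨_, rfl⟩
  obtain ⟨V₂, hV₂⟩ : ∃ V₂ : Set EE, V₂ = {p : EE | |(A Φ p.1).det| < δ} := ⟨_, rfl⟩
  have hV₁o : IsOpen V₁ := by rw [hV₁]; exact isOpen_lt continuous_const hdetc.abs
  have hV₂o : IsOpen V₂ := by rw [hV₂]; exact isOpen_lt hdetc.abs continuous_const
  have hd12 : Disjoint V₁ V₂ := by
    rw [disjoint_left, hV₁, hV₂]
    intro p h1 h2
    simp only [mem_ofPred_eq] at h1 h2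
    linarith
  -- the zeros
  have hzero : ∀ p : EE, sys0 Φ u p = 0 → (p.2.2 ≠ 0 ∧ (A Φ p.1).det = 0) ∨
      (p.2.2 = 0 ∧ (p = P 1 ∨ p = P (-1))) := by
    intro p h0
    unfold sys0 at h0
    simp only [Prod.mk_eq_zero] at h0
    obtain ⟨e1, e2, e3⟩ := h0
    have hw := norm_one_of_sq e2
    by_cases hz : p.2.2 = 0
    · right
      refine ⟨hz, ?_⟩
      rw [hz, q_zero, zero_sub] at e1
      have e4 : -u = p.2.1 • p.1 := by
        have := sub_eq_zero.1 e1
        rw [← this, neg_neg]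
      have hc : p.2.1 ≠ 0 := by
        intro hc
        rw [hc, zero_smul, neg_eq_zero] at e4
        exact hu0 e4
      have key : ∀ σ : ℝ, σ = 1 ∨ σ = -1 → 0 < σ * p.2.1 → p = P σ := by
        intro σ hσ' hpos
        have hσabs : |σ| = 1 := by rcases hσ' with h | h <;> rw [h] <;> norm_num
        have hσ2 := hσ σ hσ'
        have e5 : ‖-u‖ = σ * p.2.1 := by
          rw [e4, norm_smul, hw, mul_one, Real.norm_eq_abs]
          rw [← abs_of_pos hpos, abs_mul, hσabs, one_mul]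
        have e6 : p.2.1 = σ * ‖-u‖ := by rw [e5]; linear_combination (-p.2.1) * hσ2
        have e7 : p.1 = (σ * ‖-u‖⁻¹) • (-u) := by
          have : (σ * ‖-u‖⁻¹) • (-u) = (σ * ‖-u‖⁻¹) • ((σ * ‖-u‖) • p.1) := by
            rw [← e6, ← e4]
          rw [this, smul_smul]
          have h2 : σ * ‖-u‖⁻¹ * (σ * ‖-u‖) = 1 := by
            have : ‖-u‖⁻¹ * ‖-u‖ = 1 := inv_mul_cancel₀ hunp.ne'
            linear_combination (‖-u‖⁻¹ * ‖-u‖) * hσ2 + this
          rw [h2, one_smul]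
        rw [hP]
        exact Prod.ext e7 (Prod.ext e6 hz)
      rcases lt_or_gt_of_ne hc with h | h
      · right; exact key (-1) (Or.inr rfl) (by linarith)
      · left; exact key 1 (Or.inl rfl) (by linarith)
    · left
      refine ⟨hz, ?_⟩
      by_contra hdet
      refine hz ?_
      exact (det_ne_zero_iff.1 hdet) (e3.trans (map_zero _).symm)
  have hPV₁ : ∀ p : EE, p = P 1 ∨ p = P (-1) → p ∈ V₁ := by
    intro p hp
    rw [hV₁]
    rcases hp with rfl | rfl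
    · exact hδ1
    · exact hδ2
  have hcov : ∀ p ∈ (univ : Set EE), sys0 Φ u p = 0 → p ∈ V₁ ∪ V₂ := by
    intro p _ h0
    rcases hzero p h0 with ⟨_, h⟩ | ⟨_, h⟩
    · right; rw [hV₂]; simp only [mem_ofPred_eq]; rw [h, abs_zero]; exact hδ
    · left; exact hPV₁ p h
  have hV12 := hV₁o.union hV₂o
  have hadmU := hadm.mono hV12 (subset_univ _) hcov
  have hsum : deg (sys0 Φ u) V₁ + deg (sys0 Φ u) V₂ = 2 := by
    rw [← deg_union hV₁o hV₂o hd12 hadmU, deg_excision hadm hV12 (subset_univ _) hcov, htot]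
  -- the part near the singular operators
  have hcont : Continuous (sys0 Φ u) := by
    unfold sys0
    have c1 : Continuous fun p : EE => q Φ p.2.2 := (continuous_q Φ).comp (by fun_prop)
    have c2 := continuous_Aapp Φ
    fun_prop
  have hadmdom : Adm (sys0 Φ u) (dom univ) := by
    refine ⟨isOpen_dom isOpen_univ, hcont.continuousOn, ?_⟩
    have : dom univ ∩ sys0 Φ u ⁻¹' {0} = (univ ∩ sys0 Φ u ⁻¹' {0}) \ V₁ := by
      ext p
      simp only [dom, mem_inter_iff, mem_ofPred_eq, mem_univ, true_and, mem_preimage,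
        mem_singleton_iff, Set.mem_sdiff]
      constructor
      · rintro ⟨h1, h2⟩
        refine ⟨h2, fun h3 => ?_⟩
        rcases hzero p h2 with ⟨_, h⟩ | ⟨h, _⟩
        · rw [hV₁] at h3
          simp only [mem_ofPred_eq] at h3
          rw [h, abs_zero] at h3
          linarith
        · exact h1 h
      · rintro ⟨h1, h2⟩
        refine ⟨fun h3 => ?_, h1⟩
        rcases hzero p h1 with ⟨h, _⟩ | ⟨_, h⟩
        · exact h h3
        · exact h2 (hPV₁ p h)
    rw [this]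
    exact hadm.comp.diff hV₁o
  have hadmV₂ : Adm (sys0 Φ u) V₂ := by
    refine ⟨hV₂o, hcont.continuousOn, ?_⟩
    have : V₂ ∩ sys0 Φ u ⁻¹' {0} = (univ ∩ sys0 Φ u ⁻¹' {0}) \ V₁ := by
      ext p
      simp only [mem_inter_iff, mem_univ, true_and, mem_preimage,
        mem_singleton_iff, Set.mem_sdiff]
      constructor
      · rintro ⟨h1, h2⟩
        exact ⟨h2, fun h3 => (disjoint_left.1 hd12) h3 h1⟩
      · rintro ⟨h1, h2⟩
        refine ⟨?_, h1⟩
        rcases hcov p (mem_univ _) h1 with h | h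
        · exact absurd h h2
        · exact h
    rw [this]
    exact hadm.comp.diff hV₁o
  have hdomV : deg (sys0 Φ u) (dom univ) = deg (sys0 Φ u) V₂ := by
    have hI : IsOpen (dom univ ∩ V₂) := (isOpen_dom isOpen_univ).inter hV₂o
    rw [← deg_excision hadmdom hI inter_subset_left ?_,
      ← deg_excision hadmV₂ hI inter_subset_right ?_]
    · intro p hp h0
      refine ⟨?_, hp⟩
      rcases hzero p h0 with ⟨h, _⟩ | ⟨_, h⟩
      · exact ⟨mem_univ _, h⟩
      · exact absurd (hPV₁ p h) (fun h3 => (disjoint_left.1 hd12) h3 hp)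
    · intro p hp h0
      refine ⟨hp, ?_⟩
      rcases hzero p h0 with ⟨_, h⟩ | ⟨h, _⟩
      · rw [hV₂]; simp only [mem_ofPred_eq]; rw [h, abs_zero]; exact hδ
      · exact absurd h hp.2
  -- the part near the trivial zeros
  have hV₁deg : deg (sys0 Φ u) V₁ = -2 := by
    have hadmV₁ : Adm (sys0 Φ u) V₁ := by
      refine Adm.of_subset_compact hV₁o hcont.continuousOn
        ((isCompact_singleton (x := P 1)).union (isCompact_singleton (x := P (-1)))) ?_ ?_
      · rintro p (hp | hp)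
        · exact hPV₁ p (Or.inl hp)
        · exact hPV₁ p (Or.inr hp)
      · intro p hp h0
        rcases hzero p h0 with ⟨_, h⟩ | ⟨_, h⟩
        · rw [hV₁] at hp
          simp only [mem_ofPred_eq] at hp
          rw [h, abs_zero] at hp
          linarith
        · exact h
    obtain ⟨O, hOe⟩ : ∃ O : ℝ → Set EE, O = fun σ => V₁ ∩ {p : EE | 0 < σ * p.2.1} := ⟨_, rfl⟩
    have hOo : ∀ σ, IsOpen (O σ) := by
      intro σ; rw [hOe]
      exact hV₁o.inter (isOpen_lt continuous_const (by fun_prop))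
    have hPO : ∀ σ : ℝ, σ = 1 ∨ σ = -1 → P σ ∈ O σ := by
      intro σ h
      rw [hOe]
      refine ⟨hPV₁ _ ?_, ?_⟩
      · rcases h with h | h <;> rw [h]
        · left; rfl
        · right; rfl
      · rw [hP]
        simp only [mem_ofPred_eq]
        rw [← mul_assoc, hσ σ h, one_mul]
        exact hunp
    have hhalf : ∀ σ : ℝ, σ = 1 ∨ σ = -1 → deg (sys0 Φ u) (O σ) = -1 := by
      intro σ h
      refine deg_trivial_half hS hu0 (hOo σ) h (fun p hp => ?_) (fun p hp => ?_) ?_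
      · rw [hOe] at hp; exact hp.2
      · rw [hOe, hV₁] at hp
        have h1 := hp.1
        simp only [mem_ofPred_eq] at h1
        intro h2
        rw [h2, abs_zero] at h1
        linarith
      · have := hPO σ h
        rw [hP] at this
        exact this
    have hOsub : O 1 ∪ O (-1) ⊆ V₁ := by
      rw [hOe]; exact union_subset inter_subset_left inter_subset_left
    have hOcov : ∀ p ∈ V₁, sys0 Φ u p = 0 → p ∈ O 1 ∪ O (-1) := by
      intro p hp h0
      rcases hzero p h0 with ⟨_, h⟩ | ⟨_, h⟩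
      · rw [hV₁] at hp
        simp only [mem_ofPred_eq] at hp
        rw [h, abs_zero] at hp
        linarith
      · rcases h with h | h
        · left; rw [h]; exact hPO 1 (Or.inl rfl)
        · right; rw [h]; exact hPO (-1) (Or.inr rfl)
    have hOU := (hOo 1).union (hOo (-1))
    rw [← deg_excision hadmV₁ hOU hOsub hOcov, deg_union (hOo 1) (hOo (-1)) ?_
      (hadmV₁.mono hOU hOsub hOcov), hhalf 1 (Or.inl rfl), hhalf (-1) (Or.inr rfl)]
    · norm_num
    · rw [disjoint_left, hOe]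
      rintro p ⟨_, h1⟩ ⟨_, h2⟩
      simp only [mem_ofPred_eq] at h1 h2
      linarith
  rw [hdomV]
  linarith

end

end Pool.Agent.Flip
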